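import Pool.Agent.Q73.RF.C
import Pool.Agent.Q73.SM.Sh

/-!
# The plane wave with random phase: equality
-/

set_option autoImplicit false
open MeasureTheory Filter Topology
open scoped ContDiff ENNReal

namespace Pool.Agent.Q73.RF

open Pool.Agent.Y139.SW Pool.Agent.Q73.SM

noncomputable section

theorem sin_small {ε a : ℝ} (h1 : ε < 1) (ha0 : 0 ≤ a) (ha1 : a ≤ Real.pi)
    (hs : Real.sin a ≤ ε) : a ≤ Real.arcsin ε ∨ Real.pi - Real.arcsin ε ≤ a := by
  by_contra hcon
  push Not at hcon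
  obtain ⟨h2, h3⟩ := hcon
  have hα : 0 ≤ Real.arcsin ε := by
    refine Real.arcsin_nonneg.2 (le_trans (Real.sin_nonneg_of_nonneg_of_le_pi ha0 ha1) hs)
  have hε0 : 0 ≤ ε := le_trans (Real.sin_nonneg_of_nonneg_of_le_pi ha0 ha1) hs
  have hsin : Real.sin (Real.arcsin ε) = ε := Real.sin_arcsin (by linarith) h1.le
  rcases le_total a (Real.pi / 2) with h | h
  · have := Real.sin_lt_sin_of_lt_of_le_pi_div_two (x := Real.arcsin ε) (y := a)
      (by linarith [Real.pi_pos]) h h2
    linarith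
  · have := Real.sin_lt_sin_of_lt_of_le_pi_div_two (x := Real.arcsin ε) (y := Real.pi - a)
      (by linarith [Real.pi_pos]) (by linarith) (by linarith)
    rw [Real.sin_pi_sub] at this
    linarith

theorem pw_prob {ε : ℝ} (hε : 0 < ε) (h1 : ε < 1) :
    (AddCircle.haarAddCircle (T := 2 * Real.pi)) {s | |pwv 1 s 0| ≤ ε} ≤
      ENNReal.ofReal (2 / Real.pi * Real.arcsin ε) := by
  have hpi := Real.pi_pos
  set α := Real.arcsin ε with hα
  have hα0 : 0 ≤ α := Real.arcsin_nonneg.2 hε.le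
  have hmS : MeasurableSet {s | |pwv 1 s 0| ≤ ε} :=
    measurableSet_le (pwv_meas 1 0).abs measurable_const
  have hmp := (AddCircle.measurePreserving_mk (2 * Real.pi) 0).measure_preimage hmS.nullMeasurableSet
  have hsub : (fun x : ℝ => (x : AddCircle (2 * Real.pi))) ⁻¹' {s | |pwv 1 s 0| ≤ ε} ∩
      Set.Ioc 0 (0 + 2 * Real.pi) ⊆ (Set.Icc 0 α ∪ Set.Icc (Real.pi - α) (Real.pi + α)) ∪
        Set.Icc (2 * Real.pi - α) (2 * Real.pi) := by
    rintro a ⟨ha, ha0, ha2⟩
    have hs : |Real.sin a| ≤ ε := by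
      have h2 : |pwv 1 ((a : ℝ) : AddCircle (2 * Real.pi)) 0| ≤ ε := ha
      rw [pwv_coe] at h2
      simpa using h2
    rw [abs_le] at hs
    rcases le_total a Real.pi with h | h
    · rcases sin_small h1 ha0.le h hs.2 with h3 | h3
      · exact Or.inl (Or.inl ⟨ha0.le, h3⟩)
      · exact Or.inl (Or.inr ⟨h3, by linarith⟩)
    · have hb : Real.sin (a - Real.pi) ≤ ε := by rw [Real.sin_sub_pi]; linarith [hs.1]
      rcases sin_small h1 (by linarith) (by linarith) hb with h3 | h3
      · exact Or.inl (Or.inr ⟨by linarith, by linarith⟩)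
      · exact Or.inr ⟨by linarith, by linarith⟩
  rw [Measure.restrict_apply' measurableSet_Ioc] at hmp
  have hvol : (volume : Measure (AddCircle (2 * Real.pi))) {s | |pwv 1 s 0| ≤ ε} ≤
      ENNReal.ofReal (4 * α) := by
    rw [← hmp]
    refine (measure_mono hsub).trans ((measure_union_le _ _).trans
      ((add_le_add (measure_union_le _ _) le_rfl).trans ?_))
    rw [Real.volume_Icc, Real.volume_Icc, Real.volume_Icc, ← ENNReal.ofReal_add (by linarith)
      (by linarith), ← ENNReal.ofReal_add (by linarith) (by linarith)]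
    exact ENNReal.ofReal_le_ofReal (by linarith)
  rw [AddCircle.volume_eq_smul_haarAddCircle, Measure.smul_apply, smul_eq_mul] at hvol
  have h2 : ENNReal.ofReal (4 * α) = ENNReal.ofReal (2 * Real.pi) *
      ENNReal.ofReal (2 / Real.pi * α) := by
    rw [← ENNReal.ofReal_mul (by positivity)]
    congr 1
    field_simp
    ring
  rw [h2] at hvol
  exact (ENNReal.mul_le_mul_iff_right (by simp [hpi]) ENNReal.ofReal_ne_top).1 hvol

theorem pw_abs : ∫ s, |pwv 1 s 0| ∂(AddCircle.haarAddCircle (T := 2 * Real.pi)) = 2 / Real.pi := by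
  have hpi := Real.pi_pos
  have h1 := AddCircle.intervalIntegral_preimage (2 * Real.pi) 0 (fun s => |pwv 1 s 0|)
  have h2 : ∫ a in (0 : ℝ)..(0 + 2 * Real.pi), |pwv 1 (a : AddCircle (2 * Real.pi)) 0| = 4 := by
    rw [zero_add]
    have e : ∀ a : ℝ, |pwv 1 (a : AddCircle (2 * Real.pi)) 0| = |Real.sin a| := by
      intro a; rw [pwv_coe]; simp
    simp only [e]
    have c : ∀ a b : ℝ, IntervalIntegrable (fun a => |Real.sin a|) volume a b :=
      fun a b => Real.continuous_sin.abs.intervalIntegrable a b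
    have k1 : ∫ x in (0 : ℝ)..Real.pi, |Real.sin x| = 2 := by
      have k0 : ∫ x in (0 : ℝ)..Real.pi, |Real.sin x| = ∫ x in (0 : ℝ)..Real.pi, Real.sin x := by
        refine intervalIntegral.integral_congr fun x hx => ?_
        rw [Set.uIcc_of_le hpi.le] at hx
        exact abs_of_nonneg (Real.sin_nonneg_of_nonneg_of_le_pi hx.1 hx.2)
      rw [k0, integral_sin]
      simp
      norm_num
    rw [← intervalIntegral.integral_add_adjacent_intervals (c 0 Real.pi) (c Real.pi (2 * Real.pi))]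
    have h3 := intervalIntegral.integral_comp_add_right (a := 0) (b := Real.pi)
      (fun a => |Real.sin a|) Real.pi
    rw [zero_add, ← two_mul] at h3
    rw [← h3]
    have k2 : ∫ x in (0 : ℝ)..Real.pi, |Real.sin (x + Real.pi)| = 2 := by
      simp only [Real.sin_add_pi, abs_neg]
      exact k1
    rw [k1, k2]; norm_num
  rw [h2] at h1
  rw [AddCircle.volume_eq_smul_haarAddCircle, integral_smul_measure,
    ENNReal.toReal_ofReal (by positivity), smul_eq_mul] at h1
  field_simp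
  linarith

theorem pw_wave : Integrable (fun s => pwv 1 s 0 ^ 2) (AddCircle.haarAddCircle (T := 2 * Real.pi)) :=
  pwv_int 1 2

theorem pw_dens (h3 : Pool.Agent.Q73.NL.D3) :
    Tendsto (fun ε => (AddCircle.haarAddCircle (T := 2 * Real.pi)) {s | |pwv 1 s 0| ≤ ε} /
      ENNReal.ofReal (2 * ε)) (𝓝[>] (0 : ℝ)) (𝓝 (ENNReal.ofReal (2 / (Real.pi ^ 2 *
        ∫ s, |pwv 1 s 0| ∂(AddCircle.haarAddCircle (T := 2 * Real.pi)))))) := by
  have hpi := Real.pi_pos
  have hlow := dens_fin h3 (P := AddCircle.haarAddCircle (T := 2 * Real.pi)) (F := pwv 1)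
    (pwv_meas 1) (pwv_sm 1) (pwv_eq 1) (pwv_st 1) pw_wave
  refine tendsto_of_le_liminf_of_limsup_le hlow ?_
  rw [pw_abs]
  have hc : 2 / (Real.pi ^ 2 * (2 / Real.pi)) = 1 / Real.pi := by field_simp
  rw [hc]
  have hd : Tendsto (fun ε : ℝ => Real.arcsin ε / ε) (𝓝[>] 0) (𝓝 1) := by
    have h1 : HasDerivAt Real.arcsin 1 0 := by
      have := Real.hasDerivAt_arcsin (x := 0) (by norm_num) (by norm_num)
      simpa using this
    have h2 := h1.tendsto_slope_zero_right
    simp only [zero_add, Real.arcsin_zero, sub_zero, smul_eq_mul] at h2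
    refine h2.congr fun ε => ?_
    rw [div_eq_inv_mul]
  have hd2 : Tendsto (fun ε : ℝ => ENNReal.ofReal (1 / Real.pi * (Real.arcsin ε / ε))) (𝓝[>] 0)
      (𝓝 (ENNReal.ofReal (1 / Real.pi))) := by
    have h1 := hd.const_mul (1 / Real.pi)
    rw [mul_one] at h1
    exact (ENNReal.continuous_ofReal.tendsto _).comp h1
  have hle : ∀ᶠ ε in 𝓝[>] (0 : ℝ), (AddCircle.haarAddCircle (T := 2 * Real.pi))
      {s | |pwv 1 s 0| ≤ ε} / ENNReal.ofReal (2 * ε) ≤
        ENNReal.ofReal (1 / Real.pi * (Real.arcsin ε / ε)) := by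
    filter_upwards [Ioo_mem_nhdsGT (show (0 : ℝ) < 1 by norm_num)] with ε hε
    have hε0 : 0 < ε := hε.1
    refine (ENNReal.div_le_div_right (pw_prob hε.1 hε.2) _).trans (le_of_eq ?_)
    rw [← ENNReal.ofReal_div_of_pos (by positivity)]
    congr 1
    field_simp
  calc limsup (fun ε => (AddCircle.haarAddCircle (T := 2 * Real.pi)) {s | |pwv 1 s 0| ≤ ε} /
      ENNReal.ofReal (2 * ε)) (𝓝[>] (0 : ℝ)) ≤
      limsup (fun ε : ℝ => ENNReal.ofReal (1 / Real.pi * (Real.arcsin ε / ε))) (𝓝[>] 0) :=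
        limsup_le_limsup hle
    _ = ENNReal.ofReal (1 / Real.pi) := hd2.limsup_eq

end

end Pool.Agent.Q73.RF
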