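import Pool.Agent.Q73.SM.E

/-!
# Stationary waves: the gradient where the field is small
-/

set_option autoImplicit false
open MeasureTheory Filter Topology
open scoped ContDiff ENNReal

namespace Pool.Agent.Q73.RF

open Pool.Agent.Y139.SW Pool.Agent.Q73.SM

noncomputable section

variable {d : ℕ} {S : Type*} [MeasurableSpace S] {P : Measure S} {τ : E d → S → S}

/-- `E ψ(F) |∇F|² = E Ψ(F) F` -/
theorem idPsi [IsProbabilityMeasure P] (hτ : ∀ x, MeasurePreserving (τ x) P P)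
    {G : S → E d → ℝ} (W : Wave P τ G) {Ψ : ℝ → ℝ} (hΨ : ContDiff ℝ ∞ Ψ) {C C' : ℝ}
    (h1 : ∀ x, |Ψ x| ≤ C) (h2 : ∀ x, |deriv Ψ x| ≤ C') :
    ∫ s, deriv Ψ (G s 0) * g2 (G s) 0 ∂P = ∫ s, Ψ (G s 0) * G s 0 ∂P := by
  have W1 := fun i => W.der hτ i
  have W2 := fun i => (W1 i).der hτ i
  have mΨ : Measurable fun s => Ψ (G s 0) := hΨ.continuous.measurable.comp W.m0
  have cΨ' : Continuous (deriv Ψ) := hΨ.continuous_deriv (by simp)
  have mΨ' : Measurable fun s => deriv Ψ (G s 0) := cΨ'.measurable.comp W.m0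
  have sX : ∀ i, SF τ (fun s y => Ψ (G s y) * D i (G s) y) := fun i =>
    (W.sf.comp hΨ).mul (W1 i).sf
  have e1 : ∀ i s, D i (fun y => Ψ (G s y) * D i (G s) y) 0 =
      deriv Ψ (G s 0) * D i (G s) 0 ^ 2 + Ψ (G s 0) * D i (D i (G s)) 0 := by
    intro i s
    rw [D_mul (f := fun y => Ψ (G s y)) (hΨ.comp (W.sf.smooth s)) ((W1 i).sf.smooth s),
      D_comp hΨ (W.sf.smooth s)]
    ring
  have i0 : ∀ i, Integrable (fun s => Ψ (G s 0) * D i (G s) 0) P := fun i =>
    (l2_l1 (W1 i).m0 (W1 i).l2).bdd_mul mΨ.aestronglyMeasurable (ae_of_all _ fun s => by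
      rw [Real.norm_eq_abs]; exact h1 _)
  have ia : ∀ i, Integrable (fun s => deriv Ψ (G s 0) * D i (G s) 0 ^ 2) P := fun i =>
    (W1 i).l2.bdd_mul mΨ'.aestronglyMeasurable (ae_of_all _ fun s => by
      rw [Real.norm_eq_abs]; exact h2 _)
  have ib : ∀ i, Integrable (fun s => Ψ (G s 0) * D i (D i (G s)) 0) P := fun i =>
    (l2_l1 (W2 i).m0 (W2 i).l2).bdd_mul mΨ.aestronglyMeasurable (ae_of_all _ fun s => by
      rw [Real.norm_eq_abs]; exact h1 _)
  have k : ∀ i, ∫ s, deriv Ψ (G s 0) * D i (G s) 0 ^ 2 ∂P =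
      -∫ s, Ψ (G s 0) * D i (D i (G s)) 0 ∂P := by
    intro i
    have h := div0 hτ (sX i) i (i0 i) (by
      simp only [e1]
      exact (ia i).add (ib i))
    simp only [e1] at h
    rw [integral_add (ia i) (ib i)] at h
    linarith
  have e2 : ∀ s, deriv Ψ (G s 0) * g2 (G s) 0 = ∑ i, deriv Ψ (G s 0) * D i (G s) 0 ^ 2 := by
    intro s
    rw [g2, Finset.mul_sum]
  simp only [e2]
  rw [integral_finsetSum _ fun i _ => ia i]
  simp only [k]
  rw [Finset.sum_neg_distrib, ← integral_finsetSum _ fun i _ => ib i, ← integral_neg]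
  congr 1; funext s
  have := W.eq s 0
  unfold Lap at this
  rw [← Finset.mul_sum, this]; ring

/-- a smooth primitive: `Ψ' ≥ 1` on `[-ε, ε]`, `|Ψ| ≤ (1 + κ) ε` -/
theorem exists_Psi {ε κ : ℝ} (hε : 0 < ε) (hκ : 0 < κ) : ∃ Ψ : ℝ → ℝ, ContDiff ℝ ∞ Ψ ∧
    (∀ x, |Ψ x| ≤ (1 + κ) * ε) ∧ (∀ x, 0 ≤ deriv Ψ x ∧ deriv Ψ x ≤ 1) ∧
    ∀ x, |x| ≤ ε → deriv Ψ x = 1 := by
  set b : ContDiffBump (0 : ℝ) := ⟨ε, (1 + κ) * ε, hε, by nlinarith⟩ with hb
  have hbc : Continuous b := b.continuous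
  have hd : ∀ x, HasDerivAt (fun x => ∫ t in (0 : ℝ)..x, b t) (b x) x := fun x =>
    intervalIntegral.integral_hasDerivAt_right (hbc.intervalIntegrable _ _)
      (hbc.stronglyMeasurableAtFilter _ _) hbc.continuousAt
  have hder : deriv (fun x => ∫ t in (0 : ℝ)..x, b t) = b := funext fun x => (hd x).deriv
  refine ⟨fun x => ∫ t in (0 : ℝ)..x, b t, ?_, ?_, ?_, ?_⟩
  · rw [contDiff_infty_iff_deriv, hder]
    exact ⟨fun x => (hd x).differentiableAt, b.contDiff⟩
  · intro x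
    change |∫ t in (0 : ℝ)..x, b t| ≤ (1 + κ) * ε
    have hrO : b.rOut = (1 + κ) * ε := rfl
    have hr0 : 0 < (1 + κ) * ε := by positivity
    have hsupp : ∀ t, (1 + κ) * ε ≤ |t| → b t = 0 := fun t ht => by
      apply b.zero_of_le_dist
      rw [hrO, Real.dist_eq, sub_zero]
      exact ht
    -- clamp
    have hb1 : ∀ t, ‖b t‖ ≤ 1 := fun t => by
      rw [Real.norm_eq_abs, abs_of_nonneg b.nonneg]
      exact b.le_one
    rcases le_total |x| ((1 + κ) * ε) with h | h
    · have h3 := intervalIntegral.norm_integral_le_of_norm_le_const (a := 0) (b := x) (f := fun t => b t)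
        (C := 1) (fun t _ => hb1 t)
      rw [Real.norm_eq_abs, one_mul, sub_zero] at h3
      exact h3.trans h
    · have hz : ∀ r : ℝ, |r| = (1 + κ) * ε → (0 ≤ r → r ≤ x) → (r ≤ 0 → x ≤ r) →
          (∫ t in (0 : ℝ)..x, b t) = ∫ t in (0 : ℝ)..r, b t := by
        intro r hr hr1 hr2
        rw [← intervalIntegral.integral_add_adjacent_intervals (hbc.intervalIntegrable 0 r)
          (hbc.intervalIntegrable r x)]
        have : ∫ t in r..x, b t = 0 := by
          refine intervalIntegral.integral_zero_ae (ae_of_all _ fun t ht => ?_)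
          apply hsupp
          rcases le_total 0 r with h0 | h0
          · rw [Set.uIoc_of_le (hr1 h0)] at ht
            rw [← hr, abs_of_nonneg h0, abs_of_nonneg (h0.trans ht.1.le)]
            exact ht.1.le
          · rw [Set.uIoc_of_ge (hr2 h0)] at ht
            rw [← hr, abs_of_nonpos h0, abs_of_nonpos (ht.2.trans h0)]
            linarith [ht.2]
        rw [this, add_zero]
      rcases le_total 0 x with hx | hx
      · rw [abs_of_nonneg hx] at h
        rw [hz ((1 + κ) * ε) (abs_of_pos hr0) (fun _ => h) (fun h' => by linarith)]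
        have h3 := intervalIntegral.norm_integral_le_of_norm_le_const (a := 0) (b := (1 + κ) * ε)
          (f := fun t => b t) (C := 1) (fun t _ => hb1 t)
        rwa [Real.norm_eq_abs, one_mul, sub_zero, abs_of_pos hr0] at h3
      · rw [abs_of_nonpos hx] at h
        rw [hz (-((1 + κ) * ε)) (by rw [abs_neg, abs_of_pos hr0]) (fun h' => by linarith)
          (fun _ => by linarith)]
        have h3 := intervalIntegral.norm_integral_le_of_norm_le_const (a := 0) (b := -((1 + κ) * ε))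
          (f := fun t => b t) (C := 1) (fun t _ => hb1 t)
        rwa [Real.norm_eq_abs, one_mul, sub_zero, abs_neg, abs_of_pos hr0] at h3
  · intro x
    rw [hder]
    exact ⟨b.nonneg, b.le_one⟩
  · intro x hx
    rw [hder]
    apply b.one_of_mem_closedBall
    rw [mem_closedBall_zero_iff, Real.norm_eq_abs]
    exact hx

/-- `E 1_{|F| ≤ ε} |∇F|² ≤ ε E |F|` -/
theorem small_grad [IsProbabilityMeasure P] (hτ : ∀ x, MeasurePreserving (τ x) P P)
    {G : S → E d → ℝ} (W : Wave P τ G) {ε : ℝ} (hε : 0 < ε) :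
    ∫ s in {s | |G s 0| ≤ ε}, g2 (G s) 0 ∂P ≤ ε * ∫ s, |G s 0| ∂P := by
  have W1 := fun i => W.der hτ i
  have ig : Integrable (fun s => g2 (G s) 0) P := by
    unfold g2
    exact integrable_finsetSum _ fun i _ => (W1 i).l2
  have iF : Integrable (fun s => |G s 0|) P := (l2_l1 W.m0 W.l2).abs
  have mS : MeasurableSet {s | |G s 0| ≤ ε} := measurableSet_le W.m0.abs measurable_const
  have key : ∀ κ : ℝ, 0 < κ → ∫ s in {s | |G s 0| ≤ ε}, g2 (G s) 0 ∂P ≤
      (1 + κ) * ε * ∫ s, |G s 0| ∂P := by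
    intro κ hκ
    obtain ⟨Ψ, h1, h2, h3, h4⟩ := exists_Psi hε hκ
    have hid := idPsi hτ W h1 (C := (1 + κ) * ε) (C' := 1) h2 (fun x => by
      rw [abs_of_nonneg (h3 x).1]; exact (h3 x).2)
    have cΨ' : Continuous (deriv Ψ) := h1.continuous_deriv (by simp)
    have mΨ' : Measurable fun s => deriv Ψ (G s 0) := cΨ'.measurable.comp W.m0
    have i1 : Integrable (fun s => deriv Ψ (G s 0) * g2 (G s) 0) P :=
      ig.bdd_mul mΨ'.aestronglyMeasurable (ae_of_all _ fun s => by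
        rw [Real.norm_eq_abs, abs_of_nonneg (h3 _).1]; exact (h3 _).2)
    calc ∫ s in {s | |G s 0| ≤ ε}, g2 (G s) 0 ∂P =
        ∫ s in {s | |G s 0| ≤ ε}, deriv Ψ (G s 0) * g2 (G s) 0 ∂P := by
          refine setIntegral_congr_fun mS fun s hs => ?_
          have hs' : |G s 0| ≤ ε := hs
          change g2 (G s) 0 = deriv Ψ (G s 0) * g2 (G s) 0
          rw [h4 _ hs', one_mul]
      _ ≤ ∫ s, deriv Ψ (G s 0) * g2 (G s) 0 ∂P :=
          setIntegral_le_integral i1 (ae_of_all _ fun s => mul_nonneg (h3 _).1 (g2_nn _ _))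
      _ = ∫ s, Ψ (G s 0) * G s 0 ∂P := hid
      _ ≤ ∫ s, (1 + κ) * ε * |G s 0| ∂P := by
          refine integral_mono ((l2_l1 W.m0 W.l2).bdd_mul
            (h1.continuous.measurable.comp W.m0).aestronglyMeasurable
            (c := (1 + κ) * ε) (ae_of_all _ fun s => by
              rw [Real.norm_eq_abs]; exact h2 _)) (iF.const_mul _) fun s => ?_
          calc Ψ (G s 0) * G s 0 ≤ |Ψ (G s 0) * G s 0| := le_abs_self _
            _ = |Ψ (G s 0)| * |G s 0| := abs_mul _ _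
            _ ≤ (1 + κ) * ε * |G s 0| := mul_le_mul_of_nonneg_right (h2 _) (abs_nonneg _)
      _ = (1 + κ) * ε * ∫ s, |G s 0| ∂P := integral_const_mul _ _
  have h0 : 0 ≤ ∫ s, |G s 0| ∂P := integral_nonneg fun s => abs_nonneg _
  refine le_of_forall_pos_le_add fun δ hδ => ?_
  have := key (δ / (ε * (∫ s, |G s 0| ∂P) + 1)) (by positivity)
  refine this.trans ?_
  have h5 : δ / (ε * (∫ s, |G s 0| ∂P) + 1) * (ε * ∫ s, |G s 0| ∂P) ≤ δ := by
    rw [div_mul_eq_mul_div, div_le_iff₀ (by positivity)]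
    nlinarith [mul_nonneg hε.le h0]
  nlinarith

end

end Pool.Agent.Q73.RF
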