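import Pool.Agent.Q73.RF.A
import Pool.Agent.Q73.NL.StmD
import Pool.Agent.Q73.NL.F3
import Pool.Agent.Q73.NL.U

/-!
# Stationary waves in the plane: the density at zero
-/

set_option autoImplicit false
open MeasureTheory Filter Topology
open scoped ContDiff ENNReal

namespace Pool.Agent.Q73.RF

open Pool.Agent.Y139.SW Pool.Agent.Q73.SM Pool.Agent.Q73.NL

noncomputable section

/-- the identification of `ℂ` with the Euclidean plane -/
def ee : ℂ ≃ₗᵢ[ℝ] E 2 := Complex.orthonormalBasisOneI.repr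

theorem ee_one : ee 1 = EuclideanSpace.single 0 1 := by
  have h := Complex.orthonormalBasisOneI.repr_self 0
  simpa [ee] using h

theorem ee_I : ee Complex.I = EuclideanSpace.single 1 1 := by
  have h := Complex.orthonormalBasisOneI.repr_self 1
  simpa [ee] using h

theorem dx_ee {f : E 2 → ℝ} (hf : ContDiff ℝ ∞ f) :
    dx (fun z => f (ee z)) = fun z => D 0 f (ee z) := by
  funext z
  have h1 : HasFDerivAt (fun z : ℂ => f (ee z))
      ((fderiv ℝ f (ee z)).comp (ee.toContinuousLinearEquiv : ℂ →L[ℝ] E 2)) z :=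
    (sdiff hf (ee z)).hasFDerivAt.comp z (ee.toContinuousLinearEquiv.hasFDerivAt)
  unfold dx
  rw [h1.fderiv]
  change fderiv ℝ f (ee z) (ee 1) = _
  rw [ee_one]
  rfl

theorem dy_ee {f : E 2 → ℝ} (hf : ContDiff ℝ ∞ f) :
    dy (fun z => f (ee z)) = fun z => D 1 f (ee z) := by
  funext z
  have h1 : HasFDerivAt (fun z : ℂ => f (ee z))
      ((fderiv ℝ f (ee z)).comp (ee.toContinuousLinearEquiv : ℂ →L[ℝ] E 2)) z :=
    (sdiff hf (ee z)).hasFDerivAt.comp z (ee.toContinuousLinearEquiv.hasFDerivAt)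
  unfold dy
  rw [h1.fderiv]
  change fderiv ℝ f (ee z) (ee Complex.I) = _
  rw [ee_I]
  rfl

theorem smooth_ee {f : E 2 → ℝ} (hf : ContDiff ℝ ∞ f) : ContDiff ℝ ∞ (fun z => f (ee z)) :=
  hf.comp ee.contDiff

theorem lap_ee {f : E 2 → ℝ} (hf : ContDiff ℝ ∞ f) (z : ℂ) :
    lap (fun z => f (ee z)) z = Lap f (ee z) := by
  unfold lap
  rw [dx_ee hf, dy_ee hf, dx_ee (D_sm hf 0), dy_ee (D_sm hf 1)]
  unfold Lap
  rw [Fin.sum_univ_two]

theorem gr_ee {f : E 2 → ℝ} (hf : ContDiff ℝ ∞ f) (z : ℂ) :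
    gr (fun z => f (ee z)) z = Real.sqrt (g2 f (ee z)) := by
  unfold gr
  rw [dx_ee hf, dy_ee hf, g2, Fin.sum_univ_two]

variable {S : Type*} [MeasurableSpace S] {P : Measure S} {τ : E 2 → S → S}

/-- the normalized mean of the gradient where the field is small -/
def Ae (P : Measure S) (G : S → E 2 → ℝ) (ε : ℝ) : ℝ≥0∞ :=
  (∫⁻ s in {s | |G s 0| ≤ ε}, ENNReal.ofReal (Real.sqrt (g2 (G s) 0)) ∂P) / ENNReal.ofReal (2 * ε)

/-- the integrand -/
def kk (G : S → E 2 → ℝ) (ε : ℝ) (s : S) (y : E 2) : ℝ≥0∞ :=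
  Set.indicator {x : ℝ | |x| ≤ ε} 1 (G s y) * ENNReal.ofReal (Real.sqrt (g2 (G s) y))

theorem kk_meas {G : S → E 2 → ℝ} (h : SF τ G) (ε : ℝ) :
    Measurable fun p : ℂ × S => kk G ε p.2 (ee p.1) := by
  have h1 : Measurable fun p : ℂ × S => (ee p.1, p.2) :=
    (ee.continuous.measurable.comp measurable_fst).prodMk measurable_snd
  have h2 := (joint h).comp h1
  have h3 := (joint (g2_sf h)).comp h1
  unfold kk
  refine Measurable.mul ?_ (ENNReal.measurable_ofReal.comp (h3.sqrt))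
  exact (measurable_one.indicator (measurableSet_le measurable_id.abs measurable_const)).comp h2

theorem lev_eq {G : S → E 2 → ℝ} (h : SF τ G) (ε : ℝ) (s : S) (W : Set ℂ) :
    lev (fun z => G s (ee z)) W ε = (∫⁻ z in W, kk G ε s (ee z)) / ENNReal.ofReal (2 * ε) := by
  unfold lev
  congr 1
  have hm : MeasurableSet {z : ℂ | |G s (ee z)| ≤ ε} :=
    measurableSet_le ((h.smooth s).continuous.comp ee.continuous).abs.measurable measurable_const
  have h1 : {z | z ∈ W ∧ |G s (ee z)| ≤ ε} = {z | |G s (ee z)| ≤ ε} ∩ W := by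
    ext z; simp only [Set.mem_ofPred_eq, Set.mem_inter_iff]; tauto
  rw [h1, ← Measure.restrict_restrict hm, ← lintegral_indicator hm]
  refine lintegral_congr fun z => ?_
  unfold kk
  by_cases hz : |G s (ee z)| ≤ ε
  · rw [Set.indicator_of_mem (by exact hz), Set.indicator_of_mem (by exact hz), Pi.one_apply, one_mul,
      gr_ee (h.smooth s)]
  · rw [Set.indicator_of_notMem (by exact hz), Set.indicator_of_notMem (by exact hz), zero_mul]

theorem mean_lev (hτ : ∀ x, MeasurePreserving (τ x) P P) [SFinite P] {G : S → E 2 → ℝ}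
    (h : SF τ G) (ε : ℝ) (W : Set ℂ) :
    ∫⁻ s, lev (fun z => G s (ee z)) W ε ∂P = volume W * Ae P G ε := by
  have hk := kk_meas h ε
  have h1 : ∀ y : E 2, ∫⁻ s, kk G ε s y ∂P = ∫⁻ s, kk G ε s 0 ∂P := by
    intro y
    have e : ∀ s, kk G ε s y = kk G ε (τ y s) 0 := fun s => by
      unfold kk
      rw [h.cov, (g2_sf h).cov, zero_add]
    simp only [e]
    refine (hτ y).lintegral_comp (f := fun s => kk G ε s 0) ?_
    have := hk.comp (measurable_prodMk_left (x := (0 : ℂ)))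
    simpa [Function.comp_def] using this
  have h2 : ∫⁻ s, kk G ε s 0 ∂P = ∫⁻ s in {s | |G s 0| ≤ ε},
      ENNReal.ofReal (Real.sqrt (g2 (G s) 0)) ∂P := by
    rw [← lintegral_indicator (measurableSet_le (h.meas 0).abs measurable_const)]
    refine lintegral_congr fun s => ?_
    unfold kk
    by_cases hz : |G s 0| ≤ ε
    · rw [Set.indicator_of_mem (by exact hz), Set.indicator_of_mem (by exact hz), Pi.one_apply, one_mul]
    · rw [Set.indicator_of_notMem (by exact hz), Set.indicator_of_notMem (by exact hz), zero_mul]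
  simp only [lev_eq h]
  simp only [div_eq_mul_inv]
  rw [lintegral_mul_const]
  · rw [lintegral_lintegral_swap (f := fun s z => kk G ε s (ee z))]
    · simp only [h1, lintegral_const]
      rw [Measure.restrict_apply_univ, h2, Ae, div_eq_mul_inv]
      ring
    · exact (hk.comp measurable_swap).aemeasurable
  · exact Measurable.lintegral_prod_right' (f := fun p : S × ℂ => kk G ε p.1 (ee p.2))
      (hk.comp measurable_swap)

theorem lev_meas {G : S → E 2 → ℝ} (h : SF τ G) (ε : ℝ) (W : Set ℂ) :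
    Measurable fun s => lev (fun z => G s (ee z)) W ε := by
  have hk := kk_meas h ε
  simp only [lev_eq h]
  exact (Measurable.lintegral_prod_right' (f := fun p : S × ℂ => kk G ε p.1 (ee p.2))
      (hk.comp measurable_swap)).div_const _

/-- the nodal length of a sample in a disc -/
theorem sample (h3 : D3) {f : E 2 → ℝ} (hf : ContDiff ℝ ∞ f) (hfe : ∀ y, Lap f y = - f y)
    (hne : ∃ y, f y ≠ 0) {R : ℝ} (hR : 0 < R) : ENNReal.ofReal (R ^ 2 - Real.pi * R) ≤
      liminf (fun ε => lev (fun z => f (ee z)) (Metric.ball 0 R) ε) (𝓝[>] (0 : ℝ)) := by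
  have hlap : ∀ z, lap (fun z => f (ee z)) z + 1 * f (ee z) = 0 := fun z => by
    rw [lap_ee hf, hfe]; ring
  have h1 := h3 (fun z => f (ee z)) 1 (Metric.ball 0 R) (smooth_ee hf) hlap (by
    obtain ⟨y, hy⟩ := hne
    exact ⟨ee.symm y, by simpa using hy⟩) Metric.isOpen_ball
  refine le_trans ?_ h1
  have hw : Sol (Metric.ball 0 R) (fun _ => 1) (fun z => f (ee z)) :=
    ⟨(smooth_ee hf).contDiffOn, fun z _ => hlap z⟩
  refine (ENNReal.ofReal_le_ofReal (low_ball 0 hR)).trans ?_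
  exact main u3 (V := fun _ => 1) (M := 1) Metric.isOpen_ball Metric.isBounded_ball
    hw one_pos (fun _ _ => ⟨by norm_num, le_rfl⟩) continuousOn_const (by norm_num)

theorem Ae_liminf (h3 : D3) [IsProbabilityMeasure P] (hτ : ∀ x, MeasurePreserving (τ x) P P)
    {G : S → E 2 → ℝ} (W : Wave P τ G) (hne : ∀ᵐ s ∂P, ∃ y, G s y ≠ 0) :
    ENNReal.ofReal (1 / Real.pi) ≤ liminf (fun ε => Ae P G ε) (𝓝[>] (0 : ℝ)) := by
  have hpi := Real.pi_pos
  have key : ∀ R : ℝ, 0 < R → ENNReal.ofReal (R ^ 2 - Real.pi * R) ≤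
      ENNReal.ofReal (Real.pi * R ^ 2) * liminf (fun ε => Ae P G ε) (𝓝[>] (0 : ℝ)) := by
    intro R hR
    have hF := lintegral_liminf_le (μ := P) (u := 𝓝[>] (0 : ℝ))
      (f := fun ε s => lev (fun z => G s (ee z)) (Metric.ball 0 R) ε) (fun ε => lev_meas W.sf ε _)
    have h1 : ENNReal.ofReal (R ^ 2 - Real.pi * R) ≤ ∫⁻ s, liminf (fun ε =>
        lev (fun z => G s (ee z)) (Metric.ball 0 R) ε) (𝓝[>] (0 : ℝ)) ∂P := by
      calc ENNReal.ofReal (R ^ 2 - Real.pi * R) =
          ∫⁻ _ : S, ENNReal.ofReal (R ^ 2 - Real.pi * R) ∂P := by simp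
        _ ≤ _ := lintegral_mono_ae (hne.mono fun s hs =>
          sample h3 (W.sf.smooth s) (W.eq s) hs hR)
    refine h1.trans (hF.trans ?_)
    simp only [mean_lev hτ W.sf]
    have hv : volume (Metric.ball (0 : ℂ) R) = ENNReal.ofReal (Real.pi * R ^ 2) := by
      rw [← vol_ball 0 hR.le, ofReal_measureReal Metric.isBounded_ball.measure_lt_top.ne]
    rw [hv]
    exact (ENNReal.liminf_const_mul_of_ne_top ENNReal.ofReal_ne_top).le
  set L := liminf (fun ε => Ae P G ε) (𝓝[>] (0 : ℝ)) with hL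
  have key2 : ∀ R : ℝ, 0 < R → ENNReal.ofReal (1 / Real.pi - 1 / R) ≤ L := by
    intro R hR
    have h1 := key R hR
    have h2 : ENNReal.ofReal (1 / Real.pi - 1 / R) =
        ENNReal.ofReal (R ^ 2 - Real.pi * R) / ENNReal.ofReal (Real.pi * R ^ 2) := by
      rw [← ENNReal.ofReal_div_of_pos (by positivity)]
      congr 1
      field_simp
    rw [h2]
    exact ENNReal.div_le_of_le_mul (h1.trans (le_of_eq (mul_comm _ _)))
  have hlim : Tendsto (fun R : ℝ => ENNReal.ofReal (1 / Real.pi - 1 / R)) atTop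
      (𝓝 (ENNReal.ofReal (1 / Real.pi))) := by
    have h1 : Tendsto (fun R : ℝ => 1 / Real.pi - 1 / R) atTop (𝓝 (1 / Real.pi - 0)) :=
      tendsto_const_nhds.sub (tendsto_const_nhds.div_atTop tendsto_id)
    rw [sub_zero] at h1
    exact (ENNReal.continuous_ofReal.tendsto _).comp h1
  exact le_of_tendsto hlim (by
    filter_upwards [eventually_gt_atTop (0 : ℝ)] with R hR
    exact key2 R hR)

end

end Pool.Agent.Q73.RF
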