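import Pool.Agent.Q73.RF.B

/-!
# The density at zero
-/

set_option autoImplicit false
open MeasureTheory Filter Topology
open scoped ContDiff ENNReal

namespace Pool.Agent.Q73.RF

open Pool.Agent.Y139.SW Pool.Agent.Q73.SM Pool.Agent.Q73.NL

noncomputable section

variable {S : Type*} [MeasurableSpace S] {P : Measure S} {τ : E 2 → S → S}

theorem Ae_le [IsProbabilityMeasure P] (hτ : ∀ x, MeasurePreserving (τ x) P P)
    {G : S → E 2 → ℝ} (W : Wave P τ G) {t : ℝ} (ht : 0 < t) {ε : ℝ} (hε : 0 < ε) :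
    Ae P G ε ≤ ENNReal.ofReal ((∫ s, |G s 0| ∂P) / (4 * t)) +
      ENNReal.ofReal (t / 2) * (P {s | |G s 0| ≤ ε} / ENNReal.ofReal (2 * ε)) := by
  have W1 := fun i => W.der hτ i
  have ig : Integrable (fun s => g2 (G s) 0) P := by
    unfold g2
    exact integrable_finsetSum _ fun i _ => (W1 i).l2
  have mg : Measurable fun s => g2 (G s) 0 := (g2_sf W.sf).meas 0
  have mS : MeasurableSet {s | |G s 0| ≤ ε} := measurableSet_le W.m0.abs measurable_const
  set A : Set S := {s | |G s 0| ≤ ε} with hA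
  set m := ∫ s, |G s 0| ∂P with hm
  have hm0 : 0 ≤ m := integral_nonneg fun s => abs_nonneg _
  have h1 : ∫⁻ s in A, ENNReal.ofReal (Real.sqrt (g2 (G s) 0)) ∂P ≤
      ∫⁻ s in A, (ENNReal.ofReal (g2 (G s) 0 / (2 * t)) + ENNReal.ofReal (t / 2)) ∂P := by
    refine lintegral_mono fun s => ?_
    rw [← ENNReal.ofReal_add (div_nonneg (g2_nn _ _) (by positivity)) (by positivity)]
    refine ENNReal.ofReal_le_ofReal ?_
    have h2 := Real.sq_sqrt (g2_nn (G s) 0)
    rw [div_add' _ _ _ (by positivity), le_div_iff₀ (by positivity)]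
    nlinarith [sq_nonneg (Real.sqrt (g2 (G s) 0) - t)]
  have h2 : ∫⁻ s in A, (ENNReal.ofReal (g2 (G s) 0 / (2 * t)) + ENNReal.ofReal (t / 2)) ∂P =
      ENNReal.ofReal (∫ s in A, g2 (G s) 0 / (2 * t) ∂P) + ENNReal.ofReal (t / 2) * P A := by
    rw [lintegral_add_right _ measurable_const, setLIntegral_const,
      ofReal_integral_eq_lintegral_ofReal (ig.div_const _).integrableOn
        (ae_of_all _ fun s => div_nonneg (g2_nn _ _) (by positivity))]
  have h3 : ∫ s in A, g2 (G s) 0 / (2 * t) ∂P ≤ ε * m / (2 * t) := by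
    rw [integral_div]
    exact div_le_div_of_nonneg_right (small_grad hτ W hε) (by positivity)
  have h4 : ∫⁻ s in A, ENNReal.ofReal (Real.sqrt (g2 (G s) 0)) ∂P ≤
      ENNReal.ofReal (ε * m / (2 * t)) + ENNReal.ofReal (t / 2) * P A :=
    h1.trans (h2.le.trans (add_le_add (ENNReal.ofReal_le_ofReal h3) le_rfl))
  unfold Ae
  refine (ENNReal.div_le_div_right h4 _).trans (le_of_eq ?_)
  rw [ENNReal.add_div, ← ENNReal.ofReal_div_of_pos (by positivity)]
  congr 1
  · congr 1
    field_simp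
    ring
  · rw [mul_div_assoc]

theorem dens (h3 : D3) [IsProbabilityMeasure P] (hτ : ∀ x, MeasurePreserving (τ x) P P)
    {G : S → E 2 → ℝ} (W : Wave P τ G) :
    ENNReal.ofReal (2 / (Real.pi ^ 2 * ∫ s, |G s 0| ∂P)) ≤
      liminf (fun ε => P {s | |G s 0| ≤ ε} / ENNReal.ofReal (2 * ε)) (𝓝[>] (0 : ℝ)) := by
  have hpi := Real.pi_pos
  set m := ∫ s, |G s 0| ∂P with hm
  have hm0 : 0 ≤ m := integral_nonneg fun s => abs_nonneg _
  rcases hm0.eq_or_lt with h0 | hmp
  · rw [← h0]; simp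
  by_cases hZ : P {s | ∀ y, G s y = 0} = 0
  · have hne : ∀ᵐ s ∂P, ∃ y, G s y ≠ 0 := by
      rw [ae_iff]
      simpa using hZ
    have hA := Ae_liminf h3 hτ W hne
    set L := liminf (fun ε => P {s | |G s 0| ≤ ε} / ENNReal.ofReal (2 * ε)) (𝓝[>] (0 : ℝ)) with hL
    have key : ∀ η : ℝ, 0 < η → η < 1 / (2 * Real.pi) →
        ENNReal.ofReal ((1 / (2 * Real.pi) - η) * (4 / (Real.pi * m))) ≤ L := by
      intro η hη hη2
      have h1 : ENNReal.ofReal (1 / Real.pi - η) < liminf (fun ε => Ae P G ε) (𝓝[>] (0 : ℝ)) := by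
        refine lt_of_lt_of_le ?_ hA
        exact (ENNReal.ofReal_lt_ofReal_iff (by positivity)).2 (by linarith)
      refine le_liminf_of_le (by isBoundedDefault) ?_
      filter_upwards [eventually_lt_of_lt_liminf h1, self_mem_nhdsWithin] with ε h2 hε
      have hε0 : 0 < ε := hε
      have h4 := h2.le.trans (Ae_le hτ W (t := Real.pi * m / 2) (by positivity) hε0)
      set p := P {s | |G s 0| ≤ ε} / ENNReal.ofReal (2 * ε) with hp
      rw [← hm] at h4
      have h5 : m / (4 * (Real.pi * m / 2)) = 1 / (2 * Real.pi) := by field_simp; norm_num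
      rw [h5] at h4
      have h6 : ENNReal.ofReal (1 / Real.pi - η) = ENNReal.ofReal (1 / (2 * Real.pi)) +
          ENNReal.ofReal (1 / (2 * Real.pi) - η) := by
        rw [← ENNReal.ofReal_add (by positivity) (by linarith)]
        congr 1
        field_simp
        ring
      rw [h6] at h4
      have h7 : ENNReal.ofReal (1 / (2 * Real.pi) - η) ≤
          ENNReal.ofReal (Real.pi * m / 2 / 2) * p :=
        (ENNReal.add_le_add_iff_left ENNReal.ofReal_ne_top).1 h4
      have h8 : ENNReal.ofReal ((1 / (2 * Real.pi) - η) * (4 / (Real.pi * m))) =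
          ENNReal.ofReal (1 / (2 * Real.pi) - η) * ENNReal.ofReal (4 / (Real.pi * m)) :=
        ENNReal.ofReal_mul (by linarith)
      have h9 : ENNReal.ofReal (Real.pi * m / 2 / 2) * ENNReal.ofReal (4 / (Real.pi * m)) = 1 := by
        rw [← ENNReal.ofReal_mul (by positivity), ← ENNReal.ofReal_one]
        congr 1
        field_simp
        norm_num
      calc ENNReal.ofReal ((1 / (2 * Real.pi) - η) * (4 / (Real.pi * m))) =
          ENNReal.ofReal (1 / (2 * Real.pi) - η) * ENNReal.ofReal (4 / (Real.pi * m)) := h8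
        _ ≤ ENNReal.ofReal (Real.pi * m / 2 / 2) * p * ENNReal.ofReal (4 / (Real.pi * m)) := by
          gcongr
        _ = (ENNReal.ofReal (Real.pi * m / 2 / 2) * ENNReal.ofReal (4 / (Real.pi * m))) * p := by
          ring
        _ = p := by rw [h9, one_mul]
    have hlim : Tendsto (fun η : ℝ => ENNReal.ofReal ((1 / (2 * Real.pi) - η) * (4 / (Real.pi * m))))
        (𝓝[>] 0) (𝓝 (ENNReal.ofReal (2 / (Real.pi ^ 2 * m)))) := by
      have h1 : Continuous fun η : ℝ =>
          ENNReal.ofReal ((1 / (2 * Real.pi) - η) * (4 / (Real.pi * m))) :=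
        ENNReal.continuous_ofReal.comp (by fun_prop)
      have h2 := (h1.tendsto 0).mono_left (nhdsWithin_le_nhds (s := Set.Ioi 0))
      have h4 : (1 / (2 * Real.pi) - 0) * (4 / (Real.pi * m)) = 2 / (Real.pi ^ 2 * m) := by
        field_simp
        norm_num
      rw [h4] at h2
      exact h2
    refine le_of_tendsto hlim ?_
    filter_upwards [Ioo_mem_nhdsGT (show (0 : ℝ) < 1 / (2 * Real.pi) by positivity)] with η hη
    exact key η hη.1 hη.2
  · set c := 2 / (Real.pi ^ 2 * m) with hc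
    have hc0 : 0 < c := by positivity
    set q := P {s | ∀ y, G s y = 0} with hq
    have hqt : q ≠ ⊤ := measure_ne_top _ _
    have hq0 : 0 < q.toReal := ENNReal.toReal_pos hZ hqt
    refine le_liminf_of_le (by isBoundedDefault) ?_
    filter_upwards [Ioo_mem_nhdsGT (show (0 : ℝ) < q.toReal / (2 * c) by positivity)] with ε hε
    have hε0 : 0 < ε := hε.1
    rw [ENNReal.le_div_iff_mul_le (Or.inl (by simpa using hε0)) (Or.inl ENNReal.ofReal_ne_top),
      ← ENNReal.ofReal_mul hc0.le]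
    have h1 : q ≤ P {s | |G s 0| ≤ ε} := measure_mono fun s hs => by
      have : G s 0 = 0 := hs 0
      simp only [Set.mem_ofPred_eq, this, abs_zero]
      exact hε0.le
    refine le_trans ?_ h1
    rw [← ENNReal.ofReal_toReal hqt]
    refine ENNReal.ofReal_le_ofReal ?_
    have := hε.2
    rw [lt_div_iff₀ (by positivity)] at this
    linarith

/-- transfer to an arbitrary probability space -/
theorem dens_fin (h3 : D3) [IsProbabilityMeasure P] {F : S → E 2 → ℝ}
    (mF : ∀ y, Measurable fun s => F s y)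
    (sF : ∀ s, ContDiff ℝ ∞ (F s)) (eF : ∀ s y, Lap (F s) y + F s y = 0)
    (st : ∀ x : E 2, P.map (fun s y => F s (y + x)) = P.map (fun s y => F s y))
    (l2 : Integrable (fun s => F s 0 ^ 2) P) :
    ENNReal.ofReal (2 / (Real.pi ^ 2 * ∫ s, |F s 0| ∂P)) ≤
      liminf (fun ε => P {s | |F s 0| ≤ ε} / ENNReal.ofReal (2 * ε)) (𝓝[>] (0 : ℝ)) := by
  obtain ⟨Φ, v1, mΦ, hQ, hτ, W⟩ := canon mF sF eF st l2
  have h := dens h3 hτ W
  have m0 : Measurable fun f : Pool.Agent.Q73.SM.Sp 2 => f.1 0 := W.m0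
  have e1 : ∫ f, |f.1 0| ∂(P.map Φ) = ∫ s, |F s 0| ∂P := by
    rw [integral_map mΦ.aemeasurable m0.abs.aestronglyMeasurable]
    simp only [v1]
  have e2 : ∀ ε : ℝ, (P.map Φ) {f | |f.1 0| ≤ ε} = P {s | |F s 0| ≤ ε} := by
    intro ε
    rw [Measure.map_apply mΦ (measurableSet_le m0.abs measurable_const)]
    congr 1
    ext s
    simp only [Set.mem_preimage, Set.mem_ofPred_eq, v1]
  simp only [e1, e2] at h
  exact h

end

end Pool.Agent.Q73.RF
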